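import Pool.Agent.K4H81.Rob.Main

/-!
# Equilateral triangles and the lowest Robin eigenvalue: the deficit controls the perimeter deficit

For every `α < 0` and every area `V` there is a constant `c > 0` such that every triangle `T` of
area `V` satisfies `λ₁(T, α) + c (Per T - Per E) ≤ λ₁(E, α)`, where `E` is the equilateral triangle
of area `V`. In particular the equilateral triangle is the unique maximiser of the lowest Robin
eigenvalue among the triangles of given area, for every negative boundary parameter.
-/

set_option autoImplicit false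

open MeasureTheory

namespace Pool.Agent.Results.MP_c79212_an.PerimeterDeficit

/-- The Robin Rayleigh quotient of a function `u` on a planar open set `Ω` with parameter `α`.
The boundary term is the integral of `u ^ 2` over the topological boundary of `Ω` with respect to
arc length (the one dimensional Hausdorff measure). -/
noncomputable def rayleigh (Ω : Set (EuclideanSpace ℝ (Fin 2))) (α : ℝ)
    (u : EuclideanSpace ℝ (Fin 2) → ℝ) : ℝ :=
  ((∫ x in Ω, ‖fderiv ℝ u x‖ ^ 2)
    + α * ∫ x in frontier Ω, u x ^ 2 ∂(Measure.hausdorffMeasure 1)) / ∫ x in Ω, u x ^ 2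

/-- The lowest Robin eigenvalue: the infimum of the Rayleigh quotient over continuously
differentiable functions on the plane which do not vanish identically on `Ω`. For a triangle the
restrictions of these functions are dense in the Sobolev space of `Ω` and the trace is continuous,
so this is the infimum over the Sobolev space. -/
noncomputable def lowestRobin (Ω : Set (EuclideanSpace ℝ (Fin 2))) (α : ℝ) : ℝ :=
  sInf {r : ℝ | ∃ u : EuclideanSpace ℝ (Fin 2) → ℝ, ContDiff ℝ 1 u ∧
    (∫ x in Ω, u x ^ 2) ≠ 0 ∧ r = rayleigh Ω α u}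

/-- The perimeter: the length of the boundary. -/
noncomputable def perimeter (Ω : Set (EuclideanSpace ℝ (Fin 2))) : ℝ :=
  (Measure.hausdorffMeasure 1 (frontier Ω)).toReal

/-- A bounded open triangle: the interior of the convex hull of three affinely independent points. -/
def IsOpenTriangle (T : Set (EuclideanSpace ℝ (Fin 2))) : Prop :=
  ∃ A B C : EuclideanSpace ℝ (Fin 2), AffineIndependent ℝ ![A, B, C] ∧
    T = interior (convexHull ℝ {A, B, C})

/-- An open equilateral triangle. -/
def IsOpenEquilateralTriangle (E : Set (EuclideanSpace ℝ (Fin 2))) : Prop :=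
  ∃ A B C : EuclideanSpace ℝ (Fin 2), AffineIndependent ℝ ![A, B, C] ∧
    dist A B = dist B C ∧ dist B C = dist C A ∧ E = interior (convexHull ℝ {A, B, C})

/-- Sanity check: for an open triangle and a negative parameter, the set of Rayleigh quotients is
bounded below and nonempty, so `lowestRobin` is a true infimum. -/
theorem rayleigh_bddBelow_nonempty (T : Set (EuclideanSpace ℝ (Fin 2))) (hT : IsOpenTriangle T)
    (α : ℝ) (hα : α < 0) :
    BddBelow {r : ℝ | ∃ u : EuclideanSpace ℝ (Fin 2) → ℝ, ContDiff ℝ 1 u ∧
      (∫ x in T, u x ^ 2) ≠ 0 ∧ r = rayleigh T α u} ∧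
    {r : ℝ | ∃ u : EuclideanSpace ℝ (Fin 2) → ℝ, ContDiff ℝ 1 u ∧
      (∫ x in T, u x ^ 2) ≠ 0 ∧ r = rayleigh T α u}.Nonempty := by
  obtain ⟨A, B, C, h, rfl⟩ := hT
  rw [affineIndependent_iff_not_collinear_set] at h
  have hD := Pool.Agent.Helper238.cr_ne_of_not_collinear h
  refine ⟨Pool.Agent.Helper238.Rob.lam1_set_bdd hD hα, _, fun _ => 1, contDiff_const, ?_, rfl⟩
  have hv := Pool.Agent.Helper238.Rob.volume_otri hD
  intro h0
  simp only [one_pow, integral_const, smul_eq_mul, mul_one, Measure.real,
    Measure.restrict_apply_univ] at h0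
  have hcr : 0 < |Pool.Agent.Helper238.cr (B - A) (C - A)| := abs_pos.2 hD
  have e : (volume (interior (Pool.Agent.Helper238.tri A B C))).toReal = 0 := h0
  rw [hv] at e
  linarith

theorem IsOpenEquilateralTriangle.isOpenTriangle {E : Set (EuclideanSpace ℝ (Fin 2))}
    (h : IsOpenEquilateralTriangle E) : IsOpenTriangle E := by
  obtain ⟨A, B, C, h, _, _, e⟩ := h
  exact ⟨A, B, C, h, e⟩

/-- the volume of an open triangle is positive and finite -/
theorem IsOpenTriangle.volume {T : Set (EuclideanSpace ℝ (Fin 2))} (h : IsOpenTriangle T) :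
    ∃ V : ℝ, 0 < V ∧ MeasureTheory.volume T = ENNReal.ofReal V := by
  obtain ⟨A, B, C, h, rfl⟩ := h
  rw [affineIndependent_iff_not_collinear_set] at h
  have hD := Pool.Agent.Helper238.cr_ne_of_not_collinear h
  have hv := Pool.Agent.Helper238.Rob.volume_otri hD
  have hcr : 0 < |Pool.Agent.Helper238.cr (B - A) (C - A)| := abs_pos.2 hD
  refine ⟨|Pool.Agent.Helper238.cr (B - A) (C - A)| / 2, by positivity, ?_⟩
  rw [← hv, ENNReal.ofReal_toReal]
  intro ht
  rw [ht] at hv
  simp at hv
  linarith

theorem core {α V : ℝ} (hα : α < 0) (hV : 0 < V) :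
    ∃ c : ℝ, 0 < c ∧ ∀ T E : Set (EuclideanSpace ℝ (Fin 2)), IsOpenTriangle T →
      IsOpenEquilateralTriangle E → volume T = ENNReal.ofReal V → volume E = ENNReal.ofReal V →
      (perimeter E ≤ perimeter T ∧ (perimeter T = perimeter E → IsOpenEquilateralTriangle T)) ∧
      lowestRobin T α + c * (perimeter T - perimeter E) ≤ lowestRobin E α := by
  obtain ⟨c, hc, H⟩ := Pool.Agent.K4H81.Rob.main_q hα hV
  refine ⟨c, hc, ?_⟩
  rintro T E ⟨A, B, C, hT, rfl⟩ ⟨A', B', C', hE, e1, e2, rfl⟩ vT vE
  have hT0 := hT
  rw [affineIndependent_iff_not_collinear_set] at hT hE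
  have hD := Pool.Agent.Helper238.cr_ne_of_not_collinear hT
  have hD' := Pool.Agent.Helper238.cr_ne_of_not_collinear hE
  have w1 := Pool.Agent.Helper238.Rob.volume_otri hD
  have w2 := Pool.Agent.Helper238.Rob.volume_otri hD'
  have x1 : (volume (interior (Pool.Agent.Helper238.tri A B C))).toReal = V := by
    rw [show volume (interior (Pool.Agent.Helper238.tri A B C)) = ENNReal.ofReal V from vT]
    exact ENNReal.toReal_ofReal hV.le
  have x2 : (volume (interior (Pool.Agent.Helper238.tri A' B' C'))).toReal = V := by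
    rw [show volume (interior (Pool.Agent.Helper238.tri A' B' C')) = ENNReal.ofReal V from vE]
    exact ENNReal.toReal_ofReal hV.le
  have v1 : |Pool.Agent.Helper238.cr (B - A) (C - A)| = 2 * V := by rw [w1] at x1; linarith
  have v2 : |Pool.Agent.Helper238.cr (B' - A') (C' - A')| = 2 * V := by rw [w2] at x2; linarith
  have p1 : perimeter (interior (convexHull ℝ {A, B, C})) = dist B C + dist C A + dist A B :=
    Pool.Agent.K4H81.Rob.perim hD
  have p2 : perimeter (interior (convexHull ℝ {A', B', C'})) = dist B' C' + dist C' A' + dist A' B' :=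
    Pool.Agent.K4H81.Rob.perim hD'
  have hl : 0 < dist A' B' := dist_pos.2 (Pool.Agent.Helper238.Rob.ne_of_cr hD')
  have ar : Pool.Agent.Helper238.cr (B - A) (C - A) ^ 2 = 3 / 4 * (dist A' B') ^ 4 := by
    rw [← Pool.Agent.K4H81.Rob.side_of_equi e1 e2, ← sq_abs, v1, ← v2, sq_abs]
  have hiso := Pool.Agent.K4H81.Rob.iso hD hl ar
  have hper : dist B' C' + dist C' A' + dist A' B' = 3 * dist A' B' := by
    rw [← e2, ← e1]; ring
  refine ⟨⟨?_, ?_⟩, ?_⟩
  · rw [p1, p2, hper]; exact hiso.1
  · intro h
    rw [p1, p2, hper] at h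
    obtain ⟨s1, s2, s3⟩ := hiso.2 h
    exact ⟨A, B, C, hT0, by rw [s3, s1], by rw [s1, s2], rfl⟩
  · rw [p1, p2]
    exact H A B C A' B' C' hD hD' e1 e2 v1 v2

/-- (1) For every negative boundary parameter `α` and every area `V` there is `c > 0` such that,
with `E` equilateral and `T` any triangle, both of area `V`, the deficit `λ₁(E, α) - λ₁(T, α)` is at
least `c` times the perimeter deficit `Per T - Per E`, which is nonnegative and vanishes only if `T`
is equilateral. (2) For every `α < 0`, the equilateral triangle maximises the lowest Robin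
eigenvalue among the triangles of the same area, and it is the only maximiser. -/
theorem result :
    (∀ α V : ℝ, α < 0 → 0 < V → ∃ c : ℝ, 0 < c ∧
      ∀ T E : Set (EuclideanSpace ℝ (Fin 2)), IsOpenTriangle T → IsOpenEquilateralTriangle E →
        volume T = ENNReal.ofReal V → volume E = ENNReal.ofReal V →
        (perimeter E ≤ perimeter T ∧ (perimeter T = perimeter E → IsOpenEquilateralTriangle T)) ∧
        lowestRobin T α + c * (perimeter T - perimeter E) ≤ lowestRobin E α) ∧
    (∀ α : ℝ, α < 0 → ∀ T E : Set (EuclideanSpace ℝ (Fin 2)),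
      IsOpenTriangle T → IsOpenEquilateralTriangle E → volume T = volume E →
      lowestRobin T α ≤ lowestRobin E α ∧
        (lowestRobin T α = lowestRobin E α ↔ IsOpenEquilateralTriangle T)) := by
  refine ⟨fun α V hα hV => core hα hV, ?_⟩
  intro α hα T E hT hE hv
  obtain ⟨V, hV, vT⟩ := hT.volume
  have vE : volume E = ENNReal.ofReal V := by rw [← hv]; exact vT
  obtain ⟨c, hc, H⟩ := core hα hV
  obtain ⟨⟨h1, h2⟩, h3⟩ := H T E hT hE vT vE
  have h4 : 0 ≤ c * (perimeter T - perimeter E) := mul_nonneg hc.le (by linarith)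
  refine ⟨by linarith, ?_, ?_⟩
  · intro he
    apply h2
    have h5 : c * (perimeter T - perimeter E) ≤ 0 := by linarith
    have h6 : perimeter T - perimeter E ≤ 0 := by
      by_contra hcon
      push Not at hcon
      have := mul_pos hc hcon
      linarith
    linarith
  · intro hTe
    obtain ⟨⟨g1, _⟩, g3⟩ := H E T hE.isOpenTriangle hTe vE vT
    have h6 : perimeter T = perimeter E := le_antisymm g1 h1
    rw [h6, sub_self, mul_zero, add_zero] at h3 g3
    exact le_antisymm h3 g3

end Pool.Agent.Results.MP_c79212_an.PerimeterDeficit
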